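import Pool.Agent.Work.MP_9e71ee_nt.Final

/-!
# Wandering domains of tame rational maps over nonarchimedean fields

Let `C` be an algebraically closed field with a nontrivial nonarchimedean absolute value (complete
or not) which contains a discretely valued subfield whose algebraic closure is dense. Then every
wandering domain of a tame rational map `f` with coefficients in `C` lies in the attracting
basin of a type II periodic point of the Julia set.

The rational map `f` is given by its comorphism `φ : C(X) → C(X)`, `g ↦ g ∘ f`, the unique
homomorphism of `C`-algebras with `φ X = f`.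
-/

open Polynomial Filter Topology

namespace Pool.Agent.Results.MP_9e71ee_nt.WanderingTame

open MP9e71ee

theorem result (C : Type*) [NontriviallyNormedField C] [IsUltrametricDist C] [IsAlgClosed C]
    (hH : HypH C) (f : RatFunc C) (hf : 2 ≤ ratDegree f) :
    (∃! φ : RatFunc C →ₐ[C] RatFunc C, φ RatFunc.X = f) ∧
      ∀ φ : RatFunc C →ₐ[C] RatFunc C, φ RatFunc.X = f → Tame φ →
        ∀ U : Set (BerkP1 C), IsWandering φ U → InTypeIIBasin φ U := by
  refine ⟨?_, fun φ _ hT U hU => main hH φ hT U hU⟩
  have hnc : ¬ ∃ c, f = RatFunc.C c := by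
    rintro ⟨c, rfl⟩
    simp [ratDegree] at hf
  obtain ⟨φ, hφ⟩ := exists_ratHom f hnc
  exact ⟨φ, hφ, fun ψ hψ => ratHom_ext (hψ.trans hφ.symm)⟩

end Pool.Agent.Results.MP_9e71ee_nt.WanderingTame
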